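import Mathlib
import Pool.Agent.Lib.helper17.PB1

set_option autoImplicit false

namespace Pool.Agent.Results.MP_9e6edb_gt.No

open Set Filter Topology TopologicalSpace

/-- a base of clopen sets with the nesting property -/
def PrettyBase {X : Type} [TopologicalSpace X] (B : Set (Set X)) : Prop :=
  (∀ U ∈ B, IsClopen U) ∧ IsTopologicalBasis B ∧
    ∀ C D : Set (Set X), C ⊆ B → C.Countable → D ⊆ B → (∀ U ∈ C, ∀ V ∈ D, Disjoint U V) →
      ∃ W ∈ B, (∀ U ∈ C, U ⊆ W) ∧ ∀ V ∈ D, Disjoint W V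

/-- the cotopology of the base is compact -/
def Cocompact {X : Type} [TopologicalSpace X] (B : Set (Set X)) : Prop :=
  @CompactSpace X (generateFrom ((fun U : Set X => (closure U)ᶜ) '' B))

/-- zero-dimensional Hausdorff, and closures of countable unions of clopen sets are clopen -/
def BasicallyDisconnected (X : Type) [TopologicalSpace X] : Prop :=
  T2Space X ∧ IsTopologicalBasis {U : Set X | IsClopen U} ∧
    ∀ s : ℕ → Set X, (∀ n, IsClopen (s n)) → IsClopen (closure (⋃ n, s n))

open Pool.Agent.Lib.helper17.PB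

lemma split (p : Ultrafilter (Set ℕ)) (hp : ↑p ≤ (cocountable : Filter (Set ℕ))) {B : Set (Set ℕ)}
    (hB : B ∈ p) : ∃ C ⊆ B, ¬ C.Countable ∧ C ∉ p := by
  by_contra e
  push Not at e
  let y : Set ℕ := {n | {x : Set ℕ | n ∈ x} ∈ p}
  have k : ∀ n, (B ∩ {x | ¬ (n ∈ x ↔ n ∈ y)}).Countable := fun n => by
    by_contra c
    have := mem_of_superset (e _ inter_subset_left c) inter_subset_right
    by_cases h : n ∈ y
    · exact compl_notMem (show {x : Set ℕ | n ∈ x} ∈ (p : Filter _) from h)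
        (mem_of_superset this fun x hx hn => hx ⟨fun _ => h, fun _ => hn⟩)
    · refine h (show {x : Set ℕ | n ∈ x} ∈ (p : Filter _) from mem_of_superset this fun x hx => ?_)
      by_contra hn
      exact hx ⟨fun k => (hn k).elim, fun k => (h k).elim⟩
  refine compl_notMem (show B ∈ (p : Filter _) from hB) (hp ?_)
  rw [mem_cocountable, compl_compl]
  refine ((countable_iUnion k).union (countable_singleton y)).mono fun x hx => ?_
  by_cases h : x = y
  · exact Or.inr h
  · obtain ⟨n, hn⟩ := not_forall.1 fun e => h (Set.ext e)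
    exact Or.inl (mem_iUnion.2 ⟨n, hx, hn⟩)

theorem result : ∃ (X : Type) (_ : TopologicalSpace X), BasicallyDisconnected X ∧
    (∃ B : Set (Set X), PrettyBase B ∧ Cocompact B) ∧ ∃ x : X, ∀ K ∈ 𝓝 x, ¬ IsCompact K := by
  have : Uncountable (Set ℕ) := by
    rw [← Cardinal.aleph0_lt_mk_iff]; simpa using Cardinal.cantor Cardinal.aleph0
  have : (cocountable : Filter (Set ℕ)).NeBot := ⟨fun e => not_countable_univ (α := Set ℕ)
    (by simpa using mem_cocountable.1 (e ▸ mem_bot : (∅ : Set (Set ℕ)) ∈ cocountable))⟩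
  let p : Ultrafilter (Set ℕ) := Ultrafilter.of cocountable
  have hp : ↑p ≤ (cocountable : Filter (Set ℕ)) := Ultrafilter.of_le _
  have g := good_LP (p : Filter (Set ℕ))
  refine ⟨X (LP ↑p), inferInstance, ⟨inferInstance, basis_clopen, fun s hs => ?_⟩,
    ⟨_, ⟨clopen_basis, basis, pretty g⟩, cocompact g⟩, ⟨(p : Filter (Set ℕ)), isPt_p (p := (p : Filter (Set ℕ))) hp⟩, fun K hK hc => ?_⟩
  · have c : IsClopen (hat (LP ↑p) (pt g ⁻¹' ⋃ n, s n)) := clopen_hat fun F => by
      rcases pt_cases F with ⟨-, u, e⟩ | e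
      · rw [← e]; exact u.mem_or_compl_mem _
      · rw [e]; exact p.mem_or_compl_mem _
    convert c using 1
    refine subset_antisymm (closure_minimal (fun F hF => tendsto_pt g F
      ((isOpen_iUnion fun n => (hs n).2).mem_nhds hF)) c.1) fun F hF => ?_
    have := F.2.1
    exact mem_closure_of_tendsto (tendsto_pt g F) hF
  · obtain ⟨_, ⟨B, -, rfl⟩, h1, h2⟩ := basis.mem_nhds_iff.1 hK
    obtain ⟨C, c1, c2, c3⟩ := split p hp h1
    have : NeBot (cocountable ⊓ 𝓟 C) := inf_principal_neBot_iff.2 fun U hU => by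
      by_contra e
      exact c2 ((mem_cocountable.1 hU).mono fun x hx hu => e ⟨x, hu, hx⟩)
    let q := Ultrafilter.of (cocountable ⊓ 𝓟 C)
    have hq := le_inf_iff.1 (Ultrafilter.of_le (cocountable ⊓ 𝓟 C))
    obtain ⟨F, -, hF⟩ := hc.ultrafilter_le_nhds (q.map (pt g)) (le_principal_iff.2
      (show pt g ⁻¹' K ∈ (q : Filter _) from
        mem_of_superset (le_principal_iff.1 hq.2) fun a ha => h2 (c1 ha)))
    have k : ∀ S ∈ F.1, S ∈ (q : Filter _) := fun S hS => hF (hat_nhds hS)
    rcases pt_cases F with ⟨⟨D, d1, d2⟩, -⟩ | e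
    · exact compl_notMem (k D d1) (hq.1 (by simpa using d2))
    · exact compl_notMem (le_principal_iff.1 hq.2) (k _ (by
        rw [e]; exact Ultrafilter.compl_mem_iff_notMem.2 c3))

end Pool.Agent.Results.MP_9e6edb_gt.No
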